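import Pool.Agent.L5helper98.CQ.Stmts2

/-! Project CQ: the leading constant between the windows. -/

set_option autoImplicit false

namespace Pool.Agent.L5helper67.CQ

open Filter Topology Pool.Agent.L5helper98.CQ

/-- the function under the infimum -/
noncomputable def FF (n : ℕ) (p : ℝ) (r : ℕ) : ℝ :=
  (r : ℝ) / 2 * Real.log (1 / p) + n * p ^ r / ((r : ℝ) - 1)

theorem FF_nonneg {n : ℕ} {p : ℝ} (hp : 0 < p) (hL : 0 ≤ Real.log (1 / p)) {r : ℕ} (hr : 2 ≤ r) :
    0 ≤ FF n p r := by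
  have h1 : (2 : ℝ) ≤ r := by exact_mod_cast hr
  have h2 : (0 : ℝ) < (r : ℝ) - 1 := by linarith
  unfold FF
  positivity

theorem logSize_le {n : ℕ} {p : ℝ} (hp : 0 < p) (hL : 0 ≤ Real.log (1 / p)) {r : ℕ}
    (hr : 2 ≤ r) : logSize n p ≤ FF n p r := by
  refine ciInf_le (f := fun r : {r : ℕ // 2 ≤ r} => FF n p r.1) ⟨0, ?_⟩ ⟨r, hr⟩
  rintro _ ⟨s, rfl⟩
  exact FF_nonneg hp hL s.2

theorem le_logSize {n : ℕ} {p c : ℝ} (h : ∀ r : ℕ, 2 ≤ r → c ≤ FF n p r) :
    c ≤ logSize n p := by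
  have : Nonempty {r : ℕ // 2 ≤ r} := ⟨⟨2, le_rfl⟩⟩
  exact le_ciInf (f := fun r : {r : ℕ // 2 ≤ r} => FF n p r.1) fun r => h r.1 r.2

theorem mul_pow_eq {n : ℕ} {p : ℝ} (hn : 1 ≤ n) (hp : 0 < p) (r : ℕ) :
    (n : ℝ) * p ^ r = Real.exp (Real.log n - r * Real.log (1 / p)) := by
  have hn' : (0 : ℝ) < n := by exact_mod_cast hn
  rw [one_div, Real.log_inv, sub_eq_add_neg, Real.exp_add, Real.exp_log hn']
  congr 1
  rw [mul_neg, neg_neg, mul_comm, Real.exp_mul, Real.exp_log hp, Real.rpow_natCast]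

theorem tendsto_log_nat : Tendsto (fun n : ℕ => Real.log n) atTop atTop :=
  Real.tendsto_log_atTop.comp tendsto_natCast_atTop_atTop

/-- if `r > 1/x`, then `n p^r → 0` -/
theorem mul_pow_tendsto_zero {x : ℝ} {p : ℕ → ℝ} (hp : ∀ᶠ n : ℕ in atTop, 0 < p n)
    (hx : Tendsto (fun n : ℕ => Real.log (1 / p n) / Real.log n) atTop (𝓝 x)) (r : ℕ)
    (hr : 1 < r * x) : Tendsto (fun n : ℕ => (n : ℝ) * p n ^ r) atTop (𝓝 0) := by
  have h1 : Tendsto (fun n : ℕ => (1 - r * (Real.log (1 / p n) / Real.log n)) * Real.log n)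
      atTop atBot := by
    refine Tendsto.neg_mul_atTop (C := 1 - r * x) (by linarith) ?_ tendsto_log_nat
    exact tendsto_const_nhds.sub (hx.const_mul _)
  refine (Real.tendsto_exp_atBot.comp h1).congr' ?_
  filter_upwards [hp, eventually_ge_atTop 2] with n hn h2
  have h3 : (0 : ℝ) < Real.log n := Real.log_pos (by exact_mod_cast h2)
  rw [Function.comp_apply, mul_pow_eq (by omega) hn]
  congr 1
  field_simp

theorem taskConst : TaskConst := by
  intro x p hx hm hp hlim hx1
  obtain ⟨R, hR⟩ : ∃ R, R = ⌈1 / x⌉₊ := ⟨_, rfl⟩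
  have hR1 : 1 / x ≤ R := by rw [hR]; exact Nat.le_ceil _
  have hR2 : (R : ℝ) < 1 / x + 1 := by rw [hR]; exact Nat.ceil_lt_add_one (by positivity)
  have h1x : 1 < 1 / x := by rw [lt_div_iff₀ hx]; linarith
  have hR3 : 2 ≤ R := by
    have : (1 : ℝ) < R := by linarith
    exact_mod_cast this
  have hRx : 1 < R * x := by
    have h1 : 1 ≤ R * x := by rwa [div_le_iff₀ hx] at hR1
    refine lt_of_le_of_ne h1 fun h => hm R ?_
    rw [mul_comm]
    exact h.symm
  have hRx' : ((R : ℝ) - 1) * x < 1 := by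
    have : (R : ℝ) - 1 < 1 / x := by linarith
    rwa [lt_div_iff₀ hx] at this
  rw [← hR]
  -- the value in terms of `logSize`
  have hℓ := tendsto_log_nat
  have hRr : (2 : ℝ) ≤ R := by exact_mod_cast hR3
  -- `0 < log (1/p) < log n` eventually
  have hL0 : ∀ᶠ n : ℕ in atTop, 0 < Real.log (1 / p n) / Real.log n :=
    hlim.eventually_const_lt hx
  have hL1 : ∀ᶠ n : ℕ in atTop, Real.log (1 / p n) / Real.log n < 1 :=
    hlim.eventually_lt_const hx1
  obtain ⟨c, hc, hc0⟩ : ∃ c : ℝ, c = 1 - ((R : ℝ) - 1) * x ∧ 0 < c :=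
    ⟨_, rfl, by linarith⟩
  have hLc : ∀ᶠ n : ℕ in atTop, c / 2 < 1 - ((R : ℝ) - 1) * (Real.log (1 / p n) / Real.log n) := by
    have h1 : Tendsto (fun n : ℕ => 1 - ((R : ℝ) - 1) * (Real.log (1 / p n) / Real.log n)) atTop
        (𝓝 c) := by
      rw [hc]
      exact tendsto_const_nhds.sub (hlim.const_mul _)
    exact h1.eventually_const_lt (by linarith)
  have hbig : ∀ᶠ n : ℕ in atTop, 4 * (R : ℝ) ^ 2 / c ^ 2 ≤ Real.log n :=
    hℓ.eventually_ge_atTop _
  -- lower bound
  have hlow : ∀ᶠ n : ℕ in atTop, (R : ℝ) / 2 * Real.log (1 / p n) ≤ logSize n (p n) := by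
    filter_upwards [hp, hL0, hL1, hLc, hbig, eventually_ge_atTop 2] with n hpn h0 h1 h2 h3 h4
    have hl : (0 : ℝ) < Real.log n := Real.log_pos (by exact_mod_cast h4)
    have hLp : 0 < Real.log (1 / p n) := by
      by_contra hneg
      push Not at hneg
      exact absurd h0 (not_lt.2 (div_nonpos_of_nonpos_of_nonneg hneg hl.le))
    have hLl : Real.log (1 / p n) < Real.log n := by rwa [div_lt_one hl] at h1
    have hp1 : p n ≤ 1 := by
      by_contra hneg
      push Not at hneg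
      have : Real.log (1 / p n) < 0 := Real.log_neg (by positivity) (by
        rw [div_lt_one hpn]; exact hneg)
      linarith
    refine le_logSize fun r hr => ?_
    rcases le_or_gt R r with h | h
    · have h5 : (R : ℝ) ≤ r := by exact_mod_cast h
      have h6 : (0 : ℝ) < (r : ℝ) - 1 := by linarith
      have h7 : 0 ≤ n * p n ^ r / ((r : ℝ) - 1) := by positivity
      have h8 : (R : ℝ) / 2 * Real.log (1 / p n) ≤ (r : ℝ) / 2 * Real.log (1 / p n) :=
        mul_le_mul_of_nonneg_right (by linarith) hLp.le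
      unfold FF
      linarith
    · -- `r ≤ R - 1`
      have hr' : (2 : ℝ) ≤ r := by exact_mod_cast hr
      have h5 : (0 : ℝ) < (r : ℝ) - 1 := by linarith
      have h6 : (r : ℝ) - 1 ≤ R := by
        have : (r : ℝ) < R := by exact_mod_cast h
        linarith
      have h7 : p n ^ (R - 1) ≤ p n ^ r := pow_le_pow_of_le_one hpn.le hp1 (by omega)
      have h8 : (n : ℝ) * p n ^ (R - 1) = Real.exp ((1 - ((R : ℝ) - 1) *
          (Real.log (1 / p n) / Real.log n)) * Real.log n) := by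
        rw [mul_pow_eq (by omega) hpn]
        congr 1
        rw [Nat.cast_sub (by omega), Nat.cast_one]
        field_simp
      have h9 : Real.exp (c / 2 * Real.log n) ≤ (n : ℝ) * p n ^ (R - 1) := by
        rw [h8]
        exact Real.exp_le_exp.2 (mul_le_mul_of_nonneg_right h2.le hl.le)
      have h10 := Real.quadratic_le_exp_of_nonneg (x := c / 2 * Real.log n) (by positivity)
      have h11 : (R : ℝ) ^ 2 / 2 * Real.log n ≤ (c / 2 * Real.log n) ^ 2 / 2 := by
        rw [div_le_iff₀ (by positivity)] at h3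
        nlinarith
      have h12 : (R : ℝ) ^ 2 / 2 * Real.log n ≤ (n : ℝ) * p n ^ r := by
        have h13 : (0 : ℝ) ≤ c / 2 * Real.log n := by positivity
        have h14 : (n : ℝ) * p n ^ (R - 1) ≤ (n : ℝ) * p n ^ r :=
          mul_le_mul_of_nonneg_left h7 (by positivity)
        linarith
      have h15 : (R : ℝ) / 2 * Real.log n ≤ (n : ℝ) * p n ^ r / ((r : ℝ) - 1) := by
        rw [le_div_iff₀ h5]
        have h16 : (R : ℝ) / 2 * Real.log n * ((r : ℝ) - 1) ≤ (R : ℝ) / 2 * Real.log n * R :=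
          mul_le_mul_of_nonneg_left h6 (by positivity)
        have h17 : (R : ℝ) / 2 * Real.log n * R = (R : ℝ) ^ 2 / 2 * Real.log n := by ring
        linarith
      have h18 : (R : ℝ) / 2 * Real.log (1 / p n) ≤ (R : ℝ) / 2 * Real.log n :=
        mul_le_mul_of_nonneg_left hLl.le (by positivity)
      have h19 : 0 ≤ (r : ℝ) / 2 * Real.log (1 / p n) := by positivity
      unfold FF
      linarith
  -- upper bound
  have hup : ∀ᶠ n : ℕ in atTop, logSize n (p n) ≤
      (R : ℝ) / 2 * Real.log (1 / p n) + n * p n ^ R / ((R : ℝ) - 1) := by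
    filter_upwards [hp, hL0, eventually_ge_atTop 2] with n hpn h0 h4
    have hl : (0 : ℝ) < Real.log n := Real.log_pos (by exact_mod_cast h4)
    have hLp : 0 < Real.log (1 / p n) := by
      by_contra hneg
      push Not at hneg
      exact absurd h0 (not_lt.2 (div_nonpos_of_nonpos_of_nonneg hneg hl.le))
    exact logSize_le hpn hLp.le hR3
  have hz : Tendsto (fun n : ℕ => (n : ℝ) * p n ^ R) atTop (𝓝 0) :=
    mul_pow_tendsto_zero hp hlim R hRx
  -- the limit of `logSize / log n`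
  have hls : Tendsto (fun n : ℕ => logSize n (p n) / Real.log n) atTop (𝓝 ((R : ℝ) / 2 * x)) := by
    have hA : Tendsto (fun n : ℕ => (R : ℝ) / 2 * (Real.log (1 / p n) / Real.log n)) atTop
        (𝓝 ((R : ℝ) / 2 * x)) := hlim.const_mul _
    have hB : Tendsto (fun n : ℕ => (R : ℝ) / 2 * (Real.log (1 / p n) / Real.log n) +
        (n * p n ^ R / ((R : ℝ) - 1)) * (Real.log n)⁻¹) atTop (𝓝 ((R : ℝ) / 2 * x)) := by
      have h1 : Tendsto (fun n : ℕ => (n * p n ^ R / ((R : ℝ) - 1)) * (Real.log n)⁻¹) atTop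
          (𝓝 (0 / ((R : ℝ) - 1) * 0)) :=
        (hz.div_const _).mul (tendsto_inv_atTop_zero.comp hℓ)
      rw [mul_zero] at h1
      have h2 := hA.add h1
      rwa [add_zero] at h2
    refine tendsto_of_tendsto_of_tendsto_of_le_of_le' hA hB ?_ ?_
    · filter_upwards [hlow, eventually_ge_atTop 2] with n h1 h4
      have hl : (0 : ℝ) < Real.log n := Real.log_pos (by exact_mod_cast h4)
      rw [← mul_div_assoc]
      exact div_le_div_of_nonneg_right h1 hl.le
    · filter_upwards [hup, eventually_ge_atTop 2] with n h1 h4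
      have hl : (0 : ℝ) < Real.log n := Real.log_pos (by exact_mod_cast h4)
      rw [← mul_div_assoc, ← div_eq_mul_inv, ← add_div]
      exact div_le_div_of_nonneg_right h1 hl.le
  have hfin : Tendsto (fun n : ℕ => 1 - Real.log (1 / p n) / Real.log n -
      logSize n (p n) / Real.log n) atTop (𝓝 (1 - x * (1 + (R : ℝ) / 2))) := by
    have h1 := (tendsto_const_nhds (x := (1 : ℝ))).sub hlim |>.sub hls
    have h2 : 1 - x - (R : ℝ) / 2 * x = 1 - x * (1 + (R : ℝ) / 2) := by ring
    rwa [h2] at h1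
  refine hfin.congr' ?_
  filter_upwards [hp, eventually_ge_atTop 2] with n hpn h4
  have hl : (0 : ℝ) < Real.log n := Real.log_pos (by exact_mod_cast h4)
  have hn0 : (n : ℝ) ≠ 0 := by
    have : 0 < n := by omega
    exact_mod_cast this.ne'
  unfold cliqueValue
  rw [div_mul_cancel₀ _ hpn.ne', Real.log_mul hn0 hpn.ne', one_div, Real.log_inv]
  field_simp
  ring

end Pool.Agent.L5helper67.CQ
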