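import Pool.Agent.L5helper67.CQ.Const

/-! Project CQ: the leading constant in the windows `p = n^(-1/r)`. -/

set_option autoImplicit false

namespace Pool.Agent.L5helper67.CQ

open Filter Topology Pool.Agent.L5helper98.CQ

/-- the small `k` do not matter -/
theorem small_k {x : ℝ} {p : ℕ → ℝ} (hp : ∀ᶠ n : ℕ in atTop, 0 < p n) (hx : 0 < x)
    (hlim : Tendsto (fun n : ℕ => Real.log (1 / p n) / Real.log n) atTop (𝓝 x)) (R : ℕ)
    (hR : 1 ≤ R) (hRx : ((R : ℝ) - 1) * x < 1) (K : ℝ) (hK : 0 ≤ K) :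
    ∀ᶠ n : ℕ in atTop, ∀ k : ℕ, 2 ≤ k → k < R → K * Real.log n ≤ FF n (p n) k := by
  have hℓ := tendsto_log_nat
  have hL0 : ∀ᶠ n : ℕ in atTop, 0 < Real.log (1 / p n) / Real.log n :=
    hlim.eventually_const_lt hx
  obtain ⟨c, hc, hc0⟩ : ∃ c : ℝ, c = 1 - ((R : ℝ) - 1) * x ∧ 0 < c :=
    ⟨_, rfl, by linarith⟩
  have hLc : ∀ᶠ n : ℕ in atTop, c / 2 < 1 - ((R : ℝ) - 1) * (Real.log (1 / p n) / Real.log n) := by
    have h1 : Tendsto (fun n : ℕ => 1 - ((R : ℝ) - 1) * (Real.log (1 / p n) / Real.log n)) atTop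
        (𝓝 c) := by
      rw [hc]
      exact tendsto_const_nhds.sub (hlim.const_mul _)
    exact h1.eventually_const_lt (by linarith)
  have hbig : ∀ᶠ n : ℕ in atTop, 8 * (R * K) / c ^ 2 ≤ Real.log n :=
    hℓ.eventually_ge_atTop _
  filter_upwards [hp, hL0, hLc, hbig, eventually_ge_atTop 2] with n hpn h0 h2 h3 h4
  intro r hr h
  have hl : (0 : ℝ) < Real.log n := Real.log_pos (by exact_mod_cast h4)
  have hLp : 0 < Real.log (1 / p n) := by
    by_contra hneg
    push Not at hneg
    exact absurd h0 (not_lt.2 (div_nonpos_of_nonpos_of_nonneg hneg hl.le))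
  have hp1 : p n ≤ 1 := by
    by_contra hneg
    push Not at hneg
    have : Real.log (1 / p n) < 0 := Real.log_neg (by positivity) (by
      rw [div_lt_one hpn]; exact hneg)
    linarith
  have hr' : (2 : ℝ) ≤ r := by exact_mod_cast hr
  have h5 : (0 : ℝ) < (r : ℝ) - 1 := by linarith
  have h6 : (r : ℝ) - 1 ≤ R := by
    have : (r : ℝ) < R := by exact_mod_cast h
    linarith
  have h7 : p n ^ (R - 1) ≤ p n ^ r := pow_le_pow_of_le_one hpn.le hp1 (by omega)
  have h8 : (n : ℝ) * p n ^ (R - 1) = Real.exp ((1 - ((R : ℝ) - 1) *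
      (Real.log (1 / p n) / Real.log n)) * Real.log n) := by
    rw [mul_pow_eq (by omega) hpn]
    congr 1
    rw [Nat.cast_sub (by omega), Nat.cast_one]
    field_simp
  have h9 : Real.exp (c / 2 * Real.log n) ≤ (n : ℝ) * p n ^ (R - 1) := by
    rw [h8]
    exact Real.exp_le_exp.2 (mul_le_mul_of_nonneg_right h2.le hl.le)
  have h10 := Real.quadratic_le_exp_of_nonneg (x := c / 2 * Real.log n) (by positivity)
  have h11 : (R : ℝ) * K * Real.log n ≤ (c / 2 * Real.log n) ^ 2 / 2 := by
    rw [div_le_iff₀ (by positivity)] at h3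
    nlinarith
  have h12 : (R : ℝ) * K * Real.log n ≤ (n : ℝ) * p n ^ r := by
    have h13 : (0 : ℝ) ≤ c / 2 * Real.log n := by positivity
    have h14 : (n : ℝ) * p n ^ (R - 1) ≤ (n : ℝ) * p n ^ r :=
      mul_le_mul_of_nonneg_left h7 (by positivity)
    linarith
  have h15 : K * Real.log n ≤ (n : ℝ) * p n ^ r / ((r : ℝ) - 1) := by
    rw [le_div_iff₀ h5]
    have h16 : K * Real.log n * ((r : ℝ) - 1) ≤ K * Real.log n * R :=
      mul_le_mul_of_nonneg_left h6 (by positivity)
    have h17 : K * Real.log n * R = (R : ℝ) * K * Real.log n := by ring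
    linarith
  have h19 : 0 ≤ (r : ℝ) / 2 * Real.log (1 / p n) := by positivity
  unfold FF
  linarith

theorem taskWindow : TaskWindow := by
  intro r a p hr ha hp hlim hwin
  have hr' : (2 : ℝ) ≤ r := by exact_mod_cast hr
  have hr0 : (r : ℝ) ≠ 0 := by positivity
  have hr1 : (0 : ℝ) < (r : ℝ) - 1 := by linarith
  have hx : (0 : ℝ) < 1 / r := by positivity
  have hℓ := tendsto_log_nat
  have hL0 : ∀ᶠ n : ℕ in atTop, 0 < Real.log (1 / p n) / Real.log n :=
    hlim.eventually_const_lt hx
  have hL1 : ∀ᶠ n : ℕ in atTop, Real.log (1 / p n) / Real.log n < 1 := by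
    refine hlim.eventually_lt_const ?_
    rw [div_lt_one (by linarith)]
    linarith
  have hsmall := small_k hp hx hlim r (by omega) (by
    rw [mul_one_div, div_lt_one (by linarith)]
    linarith) (((r : ℝ) + 1) / 2) (by positivity)
  -- the limits of the two relevant values
  have hFr : Tendsto (fun n : ℕ => FF n (p n) r / Real.log n) atTop
      (𝓝 (1 / 2 + a / ((r : ℝ) - 1))) := by
    have h1 := (hlim.const_mul ((r : ℝ) / 2)).add (hwin.div_const ((r : ℝ) - 1))
    have h2 : (r : ℝ) / 2 * (1 / r) = 1 / 2 := by field_simp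
    rw [h2] at h1
    refine h1.congr fun n => ?_
    unfold FF
    rw [add_div]
    ring
  have hFr1 : Tendsto (fun n : ℕ => ((r : ℝ) + 1) / 2 * Real.log (1 / p n) / Real.log n) atTop
      (𝓝 (((r : ℝ) + 1) / (2 * r))) := by
    have h1 := hlim.const_mul (((r : ℝ) + 1) / 2)
    have h2 : ((r : ℝ) + 1) / 2 * (1 / r) = ((r : ℝ) + 1) / (2 * r) := by field_simp
    rw [h2] at h1
    exact h1.congr fun n => (mul_div_assoc _ _ _).symm
  have hz : Tendsto (fun n : ℕ => (n : ℝ) * p n ^ (r + 1)) atTop (𝓝 0) := by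
    refine mul_pow_tendsto_zero hp hlim (r + 1) ?_
    rw [mul_one_div, lt_div_iff₀ (by linarith)]
    push_cast
    linarith
  have hFr2 : Tendsto (fun n : ℕ => FF n (p n) (r + 1) / Real.log n) atTop
      (𝓝 (((r : ℝ) + 1) / (2 * r))) := by
    have h1 : Tendsto (fun n : ℕ => (n : ℝ) * p n ^ (r + 1) / r * (Real.log n)⁻¹) atTop
        (𝓝 (0 / (r : ℝ) * 0)) :=
      (hz.div_const _).mul (tendsto_inv_atTop_zero.comp hℓ)
    rw [mul_zero] at h1
    have h2 := hFr1.add h1
    rw [add_zero] at h2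
    refine h2.congr fun n => ?_
    unfold FF
    push_cast
    rw [add_sub_cancel_right]
    ring
  have hls : Tendsto (fun n : ℕ => logSize n (p n) / Real.log n) atTop
      (𝓝 (min (1 / 2 + a / ((r : ℝ) - 1)) (((r : ℝ) + 1) / (2 * r)))) := by
    refine tendsto_of_tendsto_of_tendsto_of_le_of_le' (hFr.min hFr1) (hFr.min hFr2) ?_ ?_
    · filter_upwards [hp, hL0, hL1, hsmall, eventually_ge_atTop 2] with n hpn h0 h1 h2 h4
      have hl : (0 : ℝ) < Real.log n := Real.log_pos (by exact_mod_cast h4)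
      have hLp : 0 < Real.log (1 / p n) := by
        by_contra hneg
        push Not at hneg
        exact absurd h0 (not_lt.2 (div_nonpos_of_nonpos_of_nonneg hneg hl.le))
      have hLl : Real.log (1 / p n) < Real.log n := by rwa [div_lt_one hl] at h1
      rw [min_div_div_right hl.le]
      refine div_le_div_of_nonneg_right ?_ hl.le
      refine le_logSize fun k hk => ?_
      rcases lt_trichotomy k r with h | h | h
      · refine (min_le_right _ _).trans ?_
        refine le_trans ?_ (h2 k hk h)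
        exact mul_le_mul_of_nonneg_left hLl.le (by positivity)
      · rw [h]
        exact min_le_left _ _
      · refine (min_le_right _ _).trans ?_
        have h5 : (r : ℝ) + 1 ≤ k := by exact_mod_cast h
        have h6 : (0 : ℝ) < (k : ℝ) - 1 := by linarith
        have h7 : 0 ≤ n * p n ^ k / ((k : ℝ) - 1) := by positivity
        have h8 : ((r : ℝ) + 1) / 2 * Real.log (1 / p n) ≤ (k : ℝ) / 2 * Real.log (1 / p n) :=
          mul_le_mul_of_nonneg_right (by linarith) hLp.le
        unfold FF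
        linarith
    · filter_upwards [hp, hL0, eventually_ge_atTop 2] with n hpn h0 h4
      have hl : (0 : ℝ) < Real.log n := Real.log_pos (by exact_mod_cast h4)
      have hLp : 0 < Real.log (1 / p n) := by
        by_contra hneg
        push Not at hneg
        exact absurd h0 (not_lt.2 (div_nonpos_of_nonpos_of_nonneg hneg hl.le))
      refine le_min ?_ ?_
      · exact div_le_div_of_nonneg_right (logSize_le hpn hLp.le hr) hl.le
      · exact div_le_div_of_nonneg_right (logSize_le hpn hLp.le (by omega)) hl.le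
  have hmin : min (1 / 2 + a / ((r : ℝ) - 1)) (((r : ℝ) + 1) / (2 * r)) =
      1 / 2 + min (a / ((r : ℝ) - 1)) (1 / (2 * r)) := by
    have h1 : ((r : ℝ) + 1) / (2 * r) = 1 / 2 + 1 / (2 * r) := by field_simp
    rw [h1, min_add_add_left]
  rw [hmin] at hls
  have hfin : Tendsto (fun n : ℕ => 1 - Real.log (1 / p n) / Real.log n -
      logSize n (p n) / Real.log n) atTop
      (𝓝 (1 / 2 - 1 / r - min (a / ((r : ℝ) - 1)) (1 / (2 * r)))) := by
    have h1 := (tendsto_const_nhds (x := (1 : ℝ))).sub hlim |>.sub hls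
    have h2 : 1 - 1 / (r : ℝ) - (1 / 2 + min (a / ((r : ℝ) - 1)) (1 / (2 * r))) =
        1 / 2 - 1 / r - min (a / ((r : ℝ) - 1)) (1 / (2 * r)) := by ring
    rwa [h2] at h1
  refine hfin.congr' ?_
  filter_upwards [hp, eventually_ge_atTop 2] with n hpn h4
  have hl : (0 : ℝ) < Real.log n := Real.log_pos (by exact_mod_cast h4)
  have hn0 : (n : ℝ) ≠ 0 := by
    have : 0 < n := by omega
    exact_mod_cast this.ne'
  unfold cliqueValue
  rw [div_mul_cancel₀ _ hpn.ne', Real.log_mul hn0 hpn.ne', one_div, Real.log_inv]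
  field_simp
  ring

end Pool.Agent.L5helper67.CQ
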